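import Pool.Agent.Helper61.FN.GoalsC
import Pool.Agent.Helper61.FN.Tools

/-!
# Packet FN-C0
-/

set_option autoImplicit false

namespace Pool.Agent.Helper55.FN

open Pool.Agent.Helper61.FN

theorem core (hS : G_CSG) (hT : G_CTA) (hA : G_C0A) (hB : G_C0B) (hI : G_C0I) (hJ : G_C0J)
    (F k : Type) [Field F] [LinearOrder F] [IsStrictOrderedRing F] [Field k]
    [Algebra F k] (p q mu ep lam : F) (v : Fin 6 → ℤ) (M : ℤ) (ξ : Fin 6 → k)
    (h : NC p q mu ep lam v M ξ) (hp : ∀ e, 0 < v e) (h3 : v 3 = 2 * v 5) : False := by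
  obtain ⟨-, -, -, t2, -, -, -⟩ := h.tri
  rcases lt_or_eq_of_le t2 with h2 | h2
  · rcases hA F k p q mu ep lam v M ξ h hp h3 h2 with ⟨a, b, c⟩ | ⟨a, b, c⟩
    · exact hI F k p q mu ep lam v M ξ h hp h3 h2 a c
    · exact hI F k p q mu ep lam (fun e ↦ v (sg e)) M (fun e ↦ ξ (sg e))
        (hS F k p q mu ep lam v M ξ h) (fun e ↦ hp _) h3 h2 a c
  · rcases hB F k p q mu ep lam v M ξ h hp h3 h2 with ⟨a, b⟩ | ⟨a, b⟩ | ⟨a, b⟩ | ⟨a, b⟩
    · exact hJ F k p q mu ep lam v M ξ h hp h3 h2 a b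
    · exact hJ F k p q mu ep lam (fun e ↦ v (sg e)) M (fun e ↦ ξ (sg e))
        (hS F k p q mu ep lam v M ξ h) (fun e ↦ hp _) h3 h2 a b
    · have b' : v 0 = v 5 + v 4 := by omega
      exact hJ F k q p mu ep lam (fun e ↦ v (ta e)) M (fun e ↦ ξ (ta e))
        (hT F k p q mu ep lam v M ξ h) (fun e ↦ hp _) h2 h3 a b'
    · have b' : v 1 = v 5 + v 4 := by omega
      exact hJ F k q p mu ep lam (fun e ↦ v (ta (sg e))) M (fun e ↦ ξ (ta (sg e)))
        (hS F k q p mu ep lam (fun e ↦ v (ta e)) M (fun e ↦ ξ (ta e))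
          (hT F k p q mu ep lam v M ξ h)) (fun e ↦ hp _) h2 h3 a b'

theorem goalC0 (hS : G_CSG) (hT : G_CTA) (hC : G_C0C) (hA : G_C0A) (hB : G_C0B) (hI : G_C0I)
    (hJ : G_C0J) : G_C0 := by
  intro F k _ _ _ _ _ p q mu ep lam v M ξ h hp
  rcases hC F k p q mu ep lam v M ξ h hp with h2 | h3
  · exact core hS hT hA hB hI hJ F k q p mu ep lam (fun e ↦ v (ta e)) M (fun e ↦ ξ (ta e))
      (hT F k p q mu ep lam v M ξ h) (fun e ↦ hp _) h2
  · exact core hS hT hA hB hI hJ F k p q mu ep lam v M ξ h hp h3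

end Pool.Agent.Helper55.FN
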